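import Pool.Agent.NE.Stmts

/-! NE, module ANC: properties of `anc`. -/

set_option autoImplicit false

namespace Pool.Agent.NE.H82

open Finset

theorem fix (s : ℕ → ℕ) (m i : ℕ) (h : i < m) (k : ℕ) :
    (fun i => if i < m then i else s i)^[k] i = i := by
  apply Function.iterate_fixed
  simp [h]

theorem key (s : ℕ → ℕ) (N : ℕ) (hs : ∀ i, 1 ≤ i → i < N → s i < i) (m : ℕ) (hm : 1 ≤ m) :
    ∀ i, i < N → ∀ k, i ≤ k → (fun i => if i < m then i else s i)^[k] i = anc s m i ∧
      anc s m i < m ∧ anc s m i ≤ i ∧ (m ≤ i → anc s m i = anc s m (s i)) := by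
  intro i
  induction i using Nat.strong_induction_on with
  | _ i ih =>
    intro hi k hk
    rcases lt_or_ge i m with h | h
    · have h1 : anc s m i = i := fix s m i h i
      exact ⟨by rw [fix s m i h k, h1], by omega, by omega, fun h2 => by omega⟩
    · have h1 : s i < i := hs i (by omega) hi
      obtain ⟨k', rfl⟩ : ∃ k', k = k' + 1 := ⟨k - 1, by omega⟩
      have h2 := ih (s i) h1 (by omega)
      have h3 : ∀ r, i ≤ r + 1 → (fun i => if i < m then i else s i)^[r + 1] i =
          anc s m (s i) := by
        intro r hr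
        rw [Function.iterate_succ_apply, if_neg (not_lt.2 h)]
        exact (h2 r (by omega)).1
      have h4 : anc s m i = anc s m (s i) := by
        obtain ⟨r, hr⟩ : ∃ r, i = r + 1 := ⟨i - 1, by omega⟩
        have h5 := h3 r (by omega)
        rw [← hr] at h5
        exact h5
      obtain ⟨-, h5, h6, -⟩ := h2 (s i) le_rfl
      exact ⟨by rw [h3 k' hk, h4], by omega, by omega, fun _ => h4⟩

/-- module ANC -/
theorem ancA : AncStmt := by
  intro s N hs
  refine ⟨fun m i h => fix s m i h i, fun m i hm hi => ?_, fun m i hm hmi hi => ?_,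
    fun m m' i hm hmm => ?_⟩
  · obtain ⟨-, h1, h2, -⟩ := key s N hs m hm i hi i le_rfl
    exact ⟨h1, h2⟩
  · exact (key s N hs m hm i hi i le_rfl).2.2.2 hmi
  · induction i using Nat.strong_induction_on with
    | _ i ih =>
      intro hi
      rcases lt_or_ge i m' with h | h
      · rw [show anc s m' i = i from fix s m' i h i]
      · have h1 : s i < i := hs i (by omega) hi
        rw [(key s N hs m' (by omega) i hi i le_rfl).2.2.2 h,
          (key s N hs m hm i hi i le_rfl).2.2.2 (by omega)]
        exact ih (s i) h1 (by omega)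

end Pool.Agent.NE.H82
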